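import Pool.Agent.R889.PZ.NMain
import Pool.Agent.H812R2.PI.GFin

/-!
Generic geometric coincidences for compositions of blocks with non-commuting incidence matrices.
-/

set_option autoImplicit false

namespace Pool.Agent.R200.PT
open Pool.Agent.H812R2.PI Pool.Agent.TH100.Pisot Pool.Agent.R889.PZ
open scoped BigOperators

variable {m : ℕ}

theorem ncard_pi {n : ℕ} {β : Type*} (A : Fin n → Set β) :
    {τ : Fin n → β | ∀ j, τ j ∈ A j}.ncard = ∏ j, (A j).ncard := by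
  have h1 : {τ : Fin n → β | ∀ j, τ j ∈ A j} = Set.univ.pi A := by
    ext τ
    simp [Set.mem_pi]
  rw [h1, ← Nat.card_coe_set_eq, Nat.card_congr (Equiv.Set.univPi A), Nat.card_pi]
  exact Finset.prod_congr rfl fun j _ => Nat.card_coe_set_eq _

/-- uniform coincidences of `τ` are coincidences of the block `ρ ∘ τ` -/
theorem hb_uc {M : Matrix (Fin (m+1)) (Fin (m+1)) ℤ} (P : PD M) (D : ℝ) :
    ∃ K : ℕ, ∀ k ≥ K, ∀ h1k : 1 ≤ k, ∀ ρ : Fin (m+1) → List (Fin (m+1)), (inc ρ).det ≠ 0 →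
      ∀ τ : Fin (m+1) → List (Fin (m+1)), inc τ = M ^ k →
        (P.pow k h1k).UC τ (P.c * (2 * D)) → Hb D (comp ρ τ) := by
  obtain ⟨K1, hK1⟩ := sign_all P (D + 1)
  obtain ⟨κ, K3, hK3⟩ := cmp_pow P
  refine ⟨max K1 K3, fun k hk h1k ρ hdet τ hτ hUC f hf a b v hv hO => ?_⟩
  have hk1 : K1 ≤ k := le_trans (le_max_left _ _) hk
  have hk3 : K3 ≤ k := le_trans (le_max_right _ _) hk
  have hh := col_pos ρ hdet hf
  rw [inc_comp, hτ, ra_mul] at hO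
  have hpos := (hK3 k hk3 _ hh).1
  rw [overlap_iff hpos] at hO
  have hn1 : nm (rv (v + ev b)) ≤ D + 1 := by
    rw [rv_add]
    refine (nm_add _ _).trans ?_
    rw [nm_ev]
    linarith
  have hn2 : nm (rv (ev a - v)) ≤ D + 1 := by
    rw [rv_sub, sub_eq_add_neg]
    refine (nm_add _ _).trans ?_
    rw [nm_ev, nm_neg]
    linarith
  have h1 := hK1 k hk1 _ hn1 _ hh hO.1
  have h2 := hK1 k hk1 _ hn2 _ hh hO.2
  have hO2 : Overlap P.ell a b v := (overlap_iff P.ell_pos a b v).2 ⟨h1, h2⟩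
  have hv2 : P.N (rv v) ≤ P.c * (2 * D) :=
    (N_le_nm P _).trans (mul_le_mul_of_nonneg_left (by linarith) P.c_pos.le)
  have h3 := hUC a b v hv2 ((ov_pos_iff (P.pow k h1k) a b v).2 hO2)
  rw [← hτ] at h3
  exact persist (S := ρ) (T := τ) (ne_nil_of_rpos hh) h3

/-- the composition of the blocks `ρ j ∘ τ j` -/
def cpl {n : ℕ} (ρ τ : Fin n → Fin (m+1) → List (Fin (m+1))) : Fin (m+1) → List (Fin (m+1)) :=
  compList (List.ofFn fun j => comp (ρ j) (τ j))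

theorem bad_good {ι : Type} [Fintype ι] (M : ι → Matrix (Fin (m+1)) (Fin (m+1)) ℤ)
    (hnn : ∀ i a b, 0 ≤ M i a b) (hM : ∀ i, PisotMat (M i)) (R : ∀ i, PD (M i)) (T : ℕ) :
    ∃ B₀ : ℝ, ∀ B ≥ B₀, ∃ c : ℝ, 0 < c ∧ ∃ K : ℕ,
      ∃ Bad : ι → ℕ → Set (Fin (m+1) → List (Fin (m+1))),
      (∀ i, ∀ k ≥ K, (SubSet (R i).u (M i ^ k) B).Finite ∧ (SubSet (R i).u (M i ^ k) B).Nonempty ∧
        Bad i k ⊆ SubSet (R i).u (M i ^ k) B ∧
        ((Bad i k).ncard : ℝ) ≤ Real.exp (-(c * ∑ a, ∑ b, (((M i ^ k) a b : ℤ) : ℝ))) *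
          ((SubSet (R i).u (M i ^ k) B).ncard : ℝ)) ∧
      ∀ (n : ℕ) (i : Fin n → ι) (k : Fin n → ℕ), (∀ j, K ≤ k j) →
      ∀ ρ : Fin n → Fin (m+1) → List (Fin (m+1)),
      (∀ j, (inc (ρ j)).det = 1 ∨ (inc (ρ j)).det = -1) → (∀ j a, (ρ j a).length ≤ T) →
      ∀ τ : Fin n → Fin (m+1) → List (Fin (m+1)),
        (∀ j, τ j ∈ SubSet (R (i j)).u (M (i j) ^ k j) B) →
        (0 < n → PisotMat (inc (cpl ρ τ))) ∧ ((∃ j, τ j ∉ Bad (i j) (k j)) →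
          ∀ P' : PD (inc (cpl ρ τ)), Good P'.ell (cpl ρ τ)) := by
  classical
  have h1 := fun i => generic_UC (M i) (hnn i) (R i)
  choose Bi hBi using h1
  refine ⟨∑ i, |Bi i|, fun B hB => ?_⟩
  have hBi' : ∀ i, B ≥ Bi i := by
    intro i
    have h2 := Finset.single_le_sum (f := fun i => |Bi i|) (fun i _ => abs_nonneg _)
      (Finset.mem_univ i)
    have h3 := le_abs_self (Bi i)
    exact (h3.trans h2).trans hB
  -- constants of the blocks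
  have hall : ∀ i, ∃ κ₀ : ℝ, 1 ≤ κ₀ ∧ ∀ κ ≥ κ₀, ∃ E₀ : ℝ, 1 + κ ≤ E₀ ∧ ∀ E ≥ E₀, ∀ Q : ℝ, ∃ K : ℕ,
      ∀ k ≥ K, ∀ ρ : Fin (m+1) → List (Fin (m+1)), (inc ρ).det ≠ 0 → (∀ a, (ρ a).length ≤ T) →
      ∀ τ : Fin (m+1) → List (Fin (m+1)), inc τ = M i ^ k →
        (∀ a j, (R i).N (rv (ab ((τ a).take j))) ≤ (R i).c * |B|) → Blk κ E Q (comp ρ τ) :=
    fun i => blk_sub (R i) T ((R i).c * |B|)
  choose κi hκi1 hblki using hall
  obtain ⟨κ, hκd⟩ : ∃ κ : ℝ, κ = 1 + ∑ i, κi i := ⟨_, rfl⟩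
  have hs0 : 0 ≤ ∑ i, κi i := Finset.sum_nonneg fun i _ => zero_le_one.trans (hκi1 i)
  have hκi : ∀ i, κ ≥ κi i := by
    intro i
    have := Finset.single_le_sum (f := κi) (fun i _ => zero_le_one.trans (hκi1 i))
      (Finset.mem_univ i)
    rw [hκd]
    linarith
  have hκ : 1 ≤ κ := by rw [hκd]; linarith
  have hall2 := fun i => hblki i κ (hκi i)
  choose Ei hEi1 hblki using hall2
  obtain ⟨E, hEd⟩ : ∃ E : ℝ, E = (1 + κ) + ∑ i, Ei i := ⟨_, rfl⟩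
  have hs1 : 0 ≤ ∑ i, Ei i := Finset.sum_nonneg fun i _ => by linarith [hEi1 i]
  have hEi : ∀ i, E ≥ Ei i := by
    intro i
    have := Finset.single_le_sum (f := Ei) (fun i _ => by linarith [hEi1 i])
      (Finset.mem_univ i)
    rw [hEd]
    linarith
  have hE : 1 + κ ≤ E := by rw [hEd]; linarith
  obtain ⟨Q, hQ⟩ : ∃ Q : ℝ, Q = ((m:ℝ) + 1) * (2 + κ) + 1 := ⟨_, rfl⟩
  have hm0 : (0:ℝ) ≤ m := Nat.cast_nonneg m
  have hQ0 : 0 < Q := by
    rw [hQ]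
    positivity
  have hall3 := fun i => hblki i E (hEi i) Q
  choose Kb hKb using hall3
  obtain ⟨D, hD⟩ : ∃ D : ℝ, D = (16 * (2 + (1 + κ) * (m + 1)) ^ 2 + 4) * (2 * E) + κ := ⟨_, rfl⟩
  have hhb := fun i => hb_uc (R i) D
  choose Kh hKh using hhb
  have h2 := fun i => hBi i B (hBi' i) ((R i).c * (2 * D))
  choose ci hci Ki hKi hgen using h2
  obtain ⟨c, hc0, hc⟩ : ∃ c : ℝ, 0 < c ∧ ∀ i, c ≤ ci i := by
    have hs : 0 ≤ ∑ i, (ci i)⁻¹ := Finset.sum_nonneg fun i _ => (inv_pos.2 (hci i)).le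
    refine ⟨(1 + ∑ i, (ci i)⁻¹)⁻¹, by positivity, fun i => ?_⟩
    have h3 := Finset.single_le_sum (f := fun i => (ci i)⁻¹) (fun i _ => (inv_pos.2 (hci i)).le)
      (Finset.mem_univ i)
    have h4 : (ci i)⁻¹ ≤ 1 + ∑ i, (ci i)⁻¹ := by linarith
    exact inv_le_of_inv_le₀ (hci i) h4
  refine ⟨c, hc0, max (∑ i, Ki i) (max (∑ i, Kb i) (∑ i, Kh i)),
    fun i k => {σ | σ ∈ SubSet (R i).u (M i ^ k) B ∧
      ∀ h1k : 1 ≤ k, ¬ ((R i).pow k h1k).UC σ ((R i).c * (2 * D))}, ?_, ?_⟩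
  · intro i k hk
    have hk' : Ki i ≤ k :=
      (Finset.single_le_sum (f := Ki) (fun i _ => Nat.zero_le _) (Finset.mem_univ i)).trans
        ((le_max_left _ _).trans hk)
    have h1k : 1 ≤ k := (hKi i).trans hk'
    obtain ⟨h3, h4, h5⟩ := hgen i k hk' h1k
    refine ⟨h3, h4, fun σ h => h.1, ?_⟩
    have h6 : {σ | σ ∈ SubSet (R i).u (M i ^ k) B ∧
        ∀ h1k : 1 ≤ k, ¬ ((R i).pow k h1k).UC σ ((R i).c * (2 * D))} =
        {σ | σ ∈ SubSet (R i).u (M i ^ k) B ∧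
        ¬ ((R i).pow k h1k).UC σ ((R i).c * (2 * D))} := by
      ext σ
      exact ⟨fun h => ⟨h.1, h.2 h1k⟩, fun h => ⟨h.1, fun _ => h.2⟩⟩
    simp only
    rw [h6]
    refine h5.trans (mul_le_mul_of_nonneg_right ?_ (Nat.cast_nonneg _))
    refine Real.exp_le_exp.2 (neg_le_neg ?_)
    refine mul_le_mul_of_nonneg_right (hc i) ?_
    refine Finset.sum_nonneg fun a _ => Finset.sum_nonneg fun b _ => ?_
    exact_mod_cast GFin_pow_nonneg (M i) (hnn i) k a b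
  intro n i k hk ρ hρ hT τ hτ
  have hk' : ∀ j, Ki (i j) ≤ k j := fun j =>
    (Finset.single_le_sum (f := Ki) (fun i _ => Nat.zero_le _) (Finset.mem_univ (i j))).trans
      ((le_max_left _ _).trans (hk j))
  have hkb : ∀ j, Kb (i j) ≤ k j := fun j =>
    (Finset.single_le_sum (f := Kb) (fun i _ => Nat.zero_le _) (Finset.mem_univ (i j))).trans
      (((le_max_left _ _).trans (le_max_right _ _)).trans (hk j))
  have hkh : ∀ j, Kh (i j) ≤ k j := fun j =>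
    (Finset.single_le_sum (f := Kh) (fun i _ => Nat.zero_le _) (Finset.mem_univ (i j))).trans
      (((le_max_right _ _).trans (le_max_right _ _)).trans (hk j))
  have h1k : ∀ j, 1 ≤ k j := fun j => (hKi (i j)).trans (hk' j)
  have hρ0 : ∀ j, (inc (ρ j)).det ≠ 0 := fun j => by
    rcases hρ j with h | h <;> rw [h] <;> norm_num
  have hblk : ∀ S ∈ List.ofFn fun j => comp (ρ j) (τ j), Blk κ E Q S := by
    intro S hS
    obtain ⟨j, rfl⟩ := (List.mem_ofFn' _ _).1 hS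
    refine hKb (i j) (k j) (hkb j) (ρ j) (hρ0 j) (hT j) (τ j) (hτ j).1 fun a l => ?_
    exact GFin_dis_N (R (i j)) |B| (abs_nonneg B) _ (((hτ j).2 a l).trans (sq_abs B).ge)
  have hdl : ∀ S ∈ List.ofFn fun j => comp (ρ j) (τ j),
      (inc S).det = 1 ∨ (inc S).det = -1 := by
    intro S hS
    obtain ⟨j, rfl⟩ := (List.mem_ofFn' _ _).1 hS
    simp only
    rw [inc_comp, Matrix.det_mul, (hτ j).1]
    have h1 := det_pow_pm _ (hM (i j)).2.1 (k j)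
    rcases hρ j with h2 | h2 <;> rcases h1 with h3 | h3 <;> rw [h2, h3] <;> norm_num
  have hpis : (List.ofFn fun j => comp (ρ j) (τ j)) ≠ [] → PisotMat (inc (cpl ρ τ)) := by
    intro hne
    refine list_pisot ?_ hκ _ hblk hne hdl
    rw [hQ]
    linarith
  refine ⟨?_, ?_⟩
  · intro hn
    refine hpis ?_
    intro h
    have := congrArg List.length h
    rw [List.length_ofFn] at this
    simp at this
    omega
  · rintro ⟨j, hj⟩
    have hUC : ((R (i j)).pow (k j) (h1k j)).UC (τ j) ((R (i j)).c * (2 * D)) := by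
      by_contra hcon
      exact hj ⟨hτ j, fun _ => hcon⟩
    have hmem : comp (ρ j) (τ j) ∈ List.ofFn fun j => comp (ρ j) (τ j) :=
      (List.mem_ofFn' _ _).2 ⟨j, rfl⟩
    have hP := hpis (List.ne_nil_of_mem hmem)
    have hH := hKh (i j) (k j) (hkh j) (h1k j) (ρ j) (hρ0 j) (τ j) (hτ j).1 hUC
    unfold cpl at hP ⊢
    obtain ⟨l1, l2, hl12⟩ := List.append_of_mem hmem
    have hl3 : (List.ofFn fun j => comp (ρ j) (τ j)) = l1 ++ [comp (ρ j) (τ j)] ++ l2 := by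
      rw [hl12]
      simp
    rw [hl3] at hP hblk ⊢
    intro P'
    rw [hD] at hH
    exact list_good2 hQ0 hE l1 l2 _ hblk hH hP P'

/-- the counting consequence -/
theorem count_of_bad {ι : Type} (M : ι → Matrix (Fin (m+1)) (Fin (m+1)) ℤ)
    (A : ι → ℕ → Set (Fin (m+1) → List (Fin (m+1)))) (c : ℝ) (K : ℕ)
    (Bad : ι → ℕ → Set (Fin (m+1) → List (Fin (m+1))))
    (h : ∀ i, ∀ k ≥ K, (A i k).Finite ∧ (A i k).Nonempty ∧ Bad i k ⊆ A i k ∧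
        ((Bad i k).ncard : ℝ) ≤ Real.exp (-(c * ∑ a, ∑ b, (((M i ^ k) a b : ℤ) : ℝ))) *
          ((A i k).ncard : ℝ)) {n : ℕ} (i : Fin n → ι) (k : Fin n → ℕ) (hk : ∀ j, K ≤ k j)
    (G : (Fin n → Fin (m+1) → List (Fin (m+1))) → Prop)
    (hG : ∀ τ : Fin n → Fin (m+1) → List (Fin (m+1)), (∀ j, τ j ∈ A (i j) (k j)) →
      (∃ j, τ j ∉ Bad (i j) (k j)) → G τ) :
    {τ : Fin n → Fin (m+1) → List (Fin (m+1)) | ∀ j, τ j ∈ A (i j) (k j)}.Finite ∧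
    {τ : Fin n → Fin (m+1) → List (Fin (m+1)) | ∀ j, τ j ∈ A (i j) (k j)}.Nonempty ∧
    ({τ : Fin n → Fin (m+1) → List (Fin (m+1)) | (∀ j, τ j ∈ A (i j) (k j)) ∧ ¬ G τ}.ncard : ℝ) ≤
      Real.exp (-(c * ∑ j, ∑ a, ∑ b, (((M (i j) ^ k j) a b : ℤ) : ℝ))) *
      ({τ : Fin n → Fin (m+1) → List (Fin (m+1)) | ∀ j, τ j ∈ A (i j) (k j)}.ncard : ℝ) := by
  have hg := fun j => h (i j) (k j) (hk j)
  refine ⟨Set.Finite.pi' fun j => (hg j).1, ?_, ?_⟩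
  · choose τ hτ using fun j => (hg j).2.1
    exact ⟨τ, hτ⟩
  · have hsub : {τ : Fin n → Fin (m+1) → List (Fin (m+1)) |
        (∀ j, τ j ∈ A (i j) (k j)) ∧ ¬ G τ} ⊆ {τ | ∀ j, τ j ∈ Bad (i j) (k j)} := by
      intro τ hτ j
      by_contra hcon
      exact hτ.2 (hG τ hτ.1 ⟨j, hcon⟩)
    have hfin2 : {τ : Fin n → Fin (m+1) → List (Fin (m+1)) |
        ∀ j, τ j ∈ Bad (i j) (k j)}.Finite :=
      Set.Finite.pi' fun j => (hg j).1.subset (hg j).2.2.1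
    have h3 := Set.ncard_le_ncard hsub hfin2
    rw [ncard_pi] at h3
    rw [ncard_pi]
    have h4 : ((∏ j, (Bad (i j) (k j)).ncard : ℕ) : ℝ) ≤
        ∏ j, (Real.exp (-(c * ∑ a, ∑ b, (((M (i j) ^ k j) a b : ℤ) : ℝ))) *
          ((A (i j) (k j)).ncard : ℝ)) := by
      push_cast
      exact Finset.prod_le_prod (fun j _ => Nat.cast_nonneg _) fun j _ => (hg j).2.2.2
    refine (le_trans (by exact_mod_cast h3) h4).trans (le_of_eq ?_)
    rw [Finset.prod_mul_distrib, ← Real.exp_sum, Finset.sum_neg_distrib, ← Finset.mul_sum]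
    push_cast
    rfl

end Pool.Agent.R200.PT
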