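import Pool.Agent.R889.PZ.Cnt
import Pool.Agent.R889.PZ.NPD

/-!
Strong coincidences of compositions of substitutions.
-/

set_option autoImplicit false

namespace Pool.Agent.R200.PT
open Pool.Agent.H812R2.PI Pool.Agent.TH100.Pisot Pool.Agent.R889.PZ
open scoped BigOperators

variable {d : ℕ}

/-- The words `w` and `w'` have a common letter after prefixes with the same abelianisation. -/
def Meet (w w' : List (Fin d)) : Prop :=
  ∃ (i : Fin d) (p₁ s₁ p₂ s₂ : List (Fin d)),
    w = p₁ ++ i :: s₁ ∧ w' = p₂ ++ i :: s₂ ∧ ab p₁ = ab p₂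

/-- The combinatorial strong coincidence condition. -/
def StrongCo (σ : Fin d → List (Fin d)) : Prop :=
  ∀ j₁ j₂ : Fin d, ∃ k : ℕ, 1 ≤ k ∧ Meet (iter σ k j₁) (iter σ k j₂)

/-- Strong coincidences with exponent one. -/
def OneCo (σ : Fin d → List (Fin d)) : Prop := ∀ j₁ j₂ : Fin d, Meet (σ j₁) (σ j₂)

theorem Meet.ext {w w' : List (Fin d)} (h : Meet w w') {S : Fin d → List (Fin d)}
    (hS : ∀ a, S a ≠ []) : Meet (ext S w) (ext S w') := by
  obtain ⟨i, p₁, s₁, p₂, s₂, h1, h2, h3⟩ := h
  obtain ⟨c, v, hc⟩ := List.exists_cons_of_ne_nil (hS i)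
  refine ⟨c, Pool.Agent.H812R2.PI.ext S p₁, v ++ Pool.Agent.H812R2.PI.ext S s₁,
    Pool.Agent.H812R2.PI.ext S p₂, v ++ Pool.Agent.H812R2.PI.ext S s₂, ?_, ?_, ?_⟩
  · rw [h1, ext_append, ext_cons, hc]
    simp
  · rw [h2, ext_append, ext_cons, hc]
    simp
  · rw [ab_ext, ab_ext, h3]

theorem iter_one (σ : Fin d → List (Fin d)) (a : Fin d) : iter σ 1 a = σ a := by
  rw [iter_succ, iter_zero]
  simp [ext]

theorem OneCo.strong {σ : Fin d → List (Fin d)} (h : OneCo σ) : StrongCo σ := by
  intro a b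
  refine ⟨1, le_rfl, ?_⟩
  rw [iter_one, iter_one]
  exact h a b

theorem OneCo.comp_left {S T : Fin d → List (Fin d)} (h : OneCo T) (hS : ∀ a, S a ≠ []) :
    OneCo (comp S T) := fun a b => (h a b).ext hS

theorem OneCo.comp_right {S T : Fin d → List (Fin d)} (h : OneCo S) (hT : ∀ a, T a ≠ []) :
    OneCo (comp S T) := by
  intro a b
  obtain ⟨a', v, ha⟩ := List.exists_cons_of_ne_nil (hT a)
  obtain ⟨b', v', hb⟩ := List.exists_cons_of_ne_nil (hT b)
  obtain ⟨i, p₁, s₁, p₂, s₂, h1, h2, h3⟩ := h a' b'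
  refine ⟨i, p₁, s₁ ++ ext S v, p₂, s₂ ++ ext S v', ?_, ?_, h3⟩
  · show ext S (T a) = _
    rw [ha, ext_cons, h1]
    simp
  · show ext S (T b) = _
    rw [hb, ext_cons, h2]
    simp

theorem meet_persist {σ : Fin d → List (Fin d)} (hσ : ∀ a, σ a ≠ []) {a b : Fin d} {k : ℕ}
    (h : Meet (iter σ k a) (iter σ k b)) (n : ℕ) (hn : k ≤ n) :
    Meet (iter σ n a) (iter σ n b) := by
  induction n, hn using Nat.le_induction with
  | base => exact h
  | succ n _ ih =>
    rw [iter_succ, iter_succ]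
    exact ih.ext hσ

/-- one exponent for all pairs of letters -/
theorem StrongCo.one {σ : Fin d → List (Fin d)} (hσ : ∀ a, σ a ≠ []) (h : StrongCo σ) :
    ∃ K : ℕ, ∀ k ≥ K, OneCo (iter σ k) := by
  choose f hf using h
  refine ⟨∑ a, ∑ b, f a b, fun k hk a b => ?_⟩
  refine meet_persist hσ (hf a b).2 k (le_trans ?_ hk)
  refine le_trans ?_ (Finset.single_le_sum (f := fun a => ∑ b, f a b)
    (fun _ _ => Nat.zero_le _) (Finset.mem_univ a))
  exact Finset.single_le_sum (f := fun b => f a b) (fun _ _ => Nat.zero_le _) (Finset.mem_univ b)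

theorem ext_ne_nil {S : Fin d → List (Fin d)} (hS : ∀ a, S a ≠ []) {w : List (Fin d)}
    (hw : w ≠ []) : ext S w ≠ [] := by
  obtain ⟨c, v, rfl⟩ := List.exists_cons_of_ne_nil hw
  rw [ext_cons]
  intro h
  exact hS c (List.append_eq_nil_iff.1 h).1

theorem compList_ne_nil (l : List (Fin d → List (Fin d))) (hl : ∀ τ ∈ l, ∀ a, τ a ≠ [])
    (a : Fin d) : compList l a ≠ [] := by
  induction l generalizing a with
  | nil => simp [compList]
  | cons τ l ih =>
    simp only [compList, comp]
    exact ext_ne_nil (hl τ (List.mem_cons_self ..))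
      (ih (fun τ' h => hl τ' (List.mem_cons_of_mem _ h)) a)

/-- a composition which contains a substitution with strong coincidences of exponent one -/
theorem oneCo_list (l₁ l₂ : List (Fin d → List (Fin d))) (τ : Fin d → List (Fin d))
    (hl : ∀ τ' ∈ l₁ ++ l₂, ∀ a, τ' a ≠ []) (h : OneCo τ) :
    OneCo (compList (l₁ ++ τ :: l₂)) := by
  rw [compList_append]
  refine OneCo.comp_left ?_
    (compList_ne_nil l₁ fun τ' h' => hl τ' (List.mem_append_left _ h'))
  simp only [compList]
  exact h.comp_right (compList_ne_nil l₂ fun τ' h' => hl τ' (List.mem_append_right _ h'))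

/-- zero-one law for strong coincidences -/
theorem sc_law {ι : Type} [Fintype ι] (F : ι → Fin d → List (Fin d)) (hF : ∀ i a, F i a ≠ []) 
    (w : List ι) (hw : w ≠ []) (hg : StrongCo (compList (w.map F))) :
    ∃ W : List ι, W ≠ [] ∧ ∀ l₁ l₂ : List ι, OneCo (compList ((l₁ ++ W ++ l₂).map F)) := by
  have hne : ∀ l : List ι, ∀ τ ∈ l.map F, ∀ a, τ a ≠ [] := by
    intro l τ hτ a
    obtain ⟨i, -, rfl⟩ := List.mem_map.1 hτ
    exact hF i a
  obtain ⟨K, hK⟩ := hg.one (fun a => compList_ne_nil _ (hne w) a)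
  refine ⟨(List.replicate (K + 1) w).flatten, ?_, fun l₁ l₂ => ?_⟩
  · rw [List.replicate_succ, List.flatten_cons]
    intro h
    exact hw (List.append_eq_nil_iff.1 h).1
  · have h1 : (List.replicate (K + 1) w).flatten.map F =
        (List.replicate (K + 1) (w.map F)).flatten := by
      generalize K + 1 = n
      induction n with
      | zero => rfl
      | succ n ih =>
        rw [List.replicate_succ, List.replicate_succ, List.flatten_cons, List.flatten_cons,
          List.map_append, ih]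
    rw [List.map_append, List.map_append, compList_append, compList_append, h1,
      Pool.Agent.Y316.Pisot.compList_flatten]
    refine OneCo.comp_right ?_ (compList_ne_nil _ (hne l₂))
    exact (hK (K + 1) (Nat.le_succ K)).comp_left (compList_ne_nil _ (hne l₁))

end Pool.Agent.R200.PT
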