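import Pool.Agent.R889.PZ.NMain
import Pool.Agent.R200.PT.LPD2
import Pool.Agent.R200.PT.SC

/-!
Compositions of blocks `ρ ∘ τ`, `inc τ = M ^ k`, of substitutions which are not necessarily
unimodular are irreducible Pisot (the proofs follow helper889's `Pool/Agent/R889/PZ`).
-/

set_option autoImplicit false

namespace Pool.Agent.R200.PT
open Pool.Agent.H812R2.PI Pool.Agent.TH100.Pisot Pool.Agent.R889.PZ
open scoped BigOperators

variable {m : ℕ} {κ E Q : ℝ}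

/-- blocks, without a condition on the prefixes -/
structure SBlk (κ Q : ℝ) (τ : Fin (m+1) → List (Fin (m+1))) : Prop where
  cmp : ∀ f : Fin (m+1) → ℝ, (∀ i, 0 < f i) → Cmp κ (ra f (inc τ))
  con : ∀ f : Fin (m+1) → ℝ, (∀ i, 0 < f i) → ∀ z, pa (ra f (inc τ)) z = 0 →
    nm (act (inc τ) z) ≤ 1 / 2 * nm z
  big : ∀ i j, Q ≤ ((inc τ i j : ℤ) : ℝ)

theorem SBlk.blk (hQ : 0 < Q) {τ : Fin (m+1) → List (Fin (m+1))} (h : SBlk κ Q τ) :
    ∃ E₀ : ℝ, ∀ E ≥ E₀, Blk κ E Q τ := by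
  refine ⟨(1 + κ) * ∑ a, ((τ a).length : ℝ), fun E hE => ⟨h.cmp, h.con, ?_, h.big⟩⟩
  intro f hf g hg c j
  have hone : ∀ i j, 1 ≤ inc τ i j := fun i j => by
    have h1 := lt_of_lt_of_le hQ (h.big i j)
    have h2 : 0 < inc τ i j := by exact_mod_cast h1
    omega
  have hκ := hf.one_le
  refine (nm_pj hf (act_pos hone hg) _).trans (le_trans ?_ hE)
  refine mul_le_mul_of_nonneg_left ?_ (by linarith)
  rw [nm_rv_ab]
  have h1 : ((((τ c).take j).length : ℕ) : ℝ) ≤ ((τ c).length : ℝ) := by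
    rw [List.length_take]
    exact_mod_cast min_le_right _ _
  exact h1.trans (Finset.single_le_sum (f := fun a => ((τ a).length : ℝ))
    (fun a _ => Nat.cast_nonneg _) (Finset.mem_univ c))

theorem list_blk (hQ : 0 < Q) (l : List (Fin (m+1) → List (Fin (m+1))))
    (hl : ∀ τ ∈ l, SBlk κ Q τ) : ∃ E₀ : ℝ, ∀ E ≥ E₀, ∀ τ ∈ l, Blk κ E Q τ := by
  induction l with
  | nil => exact ⟨0, fun E _ τ hτ => absurd hτ (List.not_mem_nil)⟩
  | cons τ l ih =>
    obtain ⟨E1, h1⟩ := ih fun τ' h => hl τ' (List.mem_cons_of_mem _ h)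
    obtain ⟨E2, h2⟩ := (hl τ (List.mem_cons_self ..)).blk hQ
    refine ⟨max E1 E2, fun E hE τ' hτ' => ?_⟩
    rcases List.mem_cons.1 hτ' with rfl | h
    · exact h2 E ((le_max_right _ _).trans hE)
    · exact h1 E ((le_max_left _ _).trans hE) τ' h

theorem list_det0 (l : List (Fin (m+1) → List (Fin (m+1))))
    (hl : ∀ τ ∈ l, (inc τ).det ≠ 0) : (inc (compList l)).det ≠ 0 := by
  induction l with
  | nil =>
    simp only [compList]
    rw [JComp_inc_id, Matrix.det_one]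
    exact one_ne_zero
  | cons τ l ih =>
    simp only [compList]
    rw [inc_comp, Matrix.det_mul]
    exact mul_ne_zero (hl τ (List.mem_cons_self ..))
      (ih (fun τ' h => hl τ' (List.mem_cons_of_mem _ h)))

theorem IrrPis.det_ne {d : ℕ} {M : Matrix (Fin d) (Fin d) ℤ} (h : IrrPis M) : M.det ≠ 0 := by
  obtain ⟨-, lam, hlam, -, hoth⟩ := h
  intro h0
  have h1 : (M.map (Int.cast : ℤ → ℂ)).charpoly.IsRoot 0 := by
    have h2 : (M.map (Int.cast : ℤ → ℂ)).charpoly = M.charpoly.map (Int.castRingHom ℂ) := by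
      rw [← Matrix.charpoly_map]
      rfl
    have h4 := Matrix.det_eq_sign_charpoly_coeff M
    rw [h0] at h4
    have h5 : M.charpoly.coeff 0 = 0 := by
      rcases mul_eq_zero.1 h4.symm with h | h
      · exact absurd h (pow_ne_zero _ (by norm_num))
      · exact h
    rw [h2, Polynomial.IsRoot.def, ← Polynomial.coeff_zero_eq_eval_zero, Polynomial.coeff_map, h5]
    simp
  have h2 : (0:ℂ) ≠ (lam : ℂ) := by
    intro h
    have h3 : (0:ℝ) = lam := by exact_mod_cast h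
    linarith
  have h3 := (hoth 0 h1 h2).1
  rw [norm_zero] at h3
  exact lt_irrefl _ h3

theorem pisot_of2 (A : Matrix (Fin (m+1)) (Fin (m+1)) ℤ) (κ : ℝ) (f : Fin (m+1) → ℝ) (Λ : ℝ)
    (hcmp : Cmp κ f) (hf : ra f A = fun i => Λ * f i) (hΛ : ((m:ℝ) + 1) * (2 + κ) < Λ)
    (hcon : ∀ z, pa f z = 0 → nm (act A z) ≤ 1 / 2 * nm z) (hdet0 : A.det ≠ 0) :
    IrrPis A := by
  have hκ := hcmp.one_le
  have hm0 : (0:ℝ) ≤ m := Nat.cast_nonneg m
  have hΛ1 : 1 < Λ := by nlinarith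
  have hroot : (A.map (Int.cast : ℤ → ℂ)).charpoly.IsRoot (Λ : ℂ) := by
    rw [LPD_root]
    refine Matrix.exists_vecMul_eq_zero_iff.mp ⟨f, ?_, ?_⟩
    · intro h
      have := hcmp.1 0
      rw [h] at this
      simp at this
    · funext j
      rw [Matrix.vecMul_sub, Pi.sub_apply, Pi.zero_apply, sub_eq_zero]
      have h3 : Matrix.vecMul f (Matrix.scalar (Fin (m+1)) Λ) j = Λ * f j := by
        simp [Matrix.vecMul, dotProduct, Matrix.diagonal_apply, mul_comm]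
      rw [h3]
      have h4 := congrFun hf j
      rw [← h4]
      rfl
  have hsmall : ∀ μ : ℂ, (A.map (Int.cast : ℤ → ℂ)).charpoly.IsRoot μ → μ ≠ (Λ : ℂ) →
      ‖μ‖ ≤ 3 / 4 := fun μ h1 h2 => small_root A f Λ hf hcon μ h1 h2
  have hmap : (A.map (Int.cast : ℤ → ℂ)).charpoly = A.charpoly.map (Int.castRingHom ℂ) := by
    rw [← Matrix.charpoly_map]
    rfl
  have hne0 : (A.map (Int.cast : ℤ → ℂ)).charpoly ≠ 0 := (Matrix.charpoly_monic _).ne_zero
  have hcount : (A.map (Int.cast : ℤ → ℂ)).charpoly.roots.count (Λ : ℂ) ≤ 1 := by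
    by_contra hcon2
    push Not at hcon2
    have h2 : Multiset.replicate 2 (Λ : ℂ) ≤ (A.map (Int.cast : ℤ → ℂ)).charpoly.roots :=
      Multiset.le_count_iff_replicate_le.1 (by omega)
    obtain ⟨t, ht⟩ := Multiset.le_iff_exists_add.1 h2
    have hcard : Multiset.card (A.map (Int.cast : ℤ → ℂ)).charpoly.roots = m + 1 := by
      rw [← (IsAlgClosed.splits _).natDegree_eq_card_roots, Matrix.charpoly_natDegree_eq_dim,
        Fintype.card_fin]
    have htr := Matrix.trace_eq_sum_roots_charpoly (A.map (Int.cast : ℤ → ℂ))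
    have htr2 : (A.map (Int.cast : ℤ → ℂ)).trace = (((A.trace : ℤ) : ℝ) : ℂ) := by
      unfold Matrix.trace
      push_cast
      rfl
    have h3 : ((A.trace : ℤ) : ℝ) = ((A.map (Int.cast : ℤ → ℂ)).charpoly.roots.sum).re := by
      rw [← htr, htr2, Complex.ofReal_re]
    have h4 : ∀ μ ∈ t, -1 ≤ μ.re := by
      intro μ hμ
      have h5 : μ ∈ (A.map (Int.cast : ℤ → ℂ)).charpoly.roots := by
        rw [ht]
        exact Multiset.mem_add.2 (Or.inr hμ)
      have h6 := (Polynomial.mem_roots hne0).1 h5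
      by_cases h7 : μ = (Λ : ℂ)
      · rw [h7, Complex.ofReal_re]
        linarith
      · have h8 := hsmall μ h6 h7
        have h9 := Complex.abs_re_le_norm μ
        have h10 := neg_abs_le μ.re
        linarith
    have h5 := re_sum_ge t h4
    have h6 : Multiset.card t ≤ m + 1 := by
      rw [← hcard, ht, Multiset.card_add]
      omega
    have h6' : (Multiset.card t : ℝ) ≤ (m:ℝ) + 1 := by exact_mod_cast h6
    rw [ht, Multiset.sum_add, Complex.add_re, Multiset.sum_replicate] at h3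
    have h7 : (2 • (Λ : ℂ)).re = 2 * Λ := by
      rw [two_nsmul, Complex.add_re, Complex.ofReal_re]
      ring
    rw [h7] at h3
    have h8 := trace_le A κ f Λ hcmp hf hcon
    nlinarith
  refine ⟨?_, Λ, hΛ1, hroot, fun μ hμ hne => ⟨?_, ?_⟩⟩
  · have h1 : Irreducible A.charpoly := by
      refine irr_of_dominant A.charpoly (Matrix.charpoly_monic A) ?_ ?_ (Λ : ℂ) ?_ ?_
      · intro h
        have h2 := Matrix.charpoly_natDegree_eq_dim A
        rw [h, Polynomial.natDegree_one, Fintype.card_fin] at h2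
        omega
      · intro h
        have h2 := Matrix.det_eq_sign_charpoly_coeff A
        rw [h, mul_zero] at h2
        exact hdet0 h2
      · intro μ hμ hne
        rw [← hmap] at hμ
        have := hsmall μ ((Polynomial.mem_roots hne0).1 hμ) hne
        linarith
      · rw [← hmap]
        exact hcount
    have h2 : (A.map (Int.cast : ℤ → ℚ)).charpoly = A.charpoly.map (algebraMap ℤ ℚ) := by
      rw [← Matrix.charpoly_map]
      rfl
    rw [h2]
    exact (Polynomial.Monic.irreducible_iff_irreducible_map_fraction_map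
      (Matrix.charpoly_monic A)).1 h1
  · rw [norm_pos_iff]
    rintro rfl
    have h1 : (A.charpoly.map (Int.castRingHom ℂ)).eval 0 = 0 := by
      rw [← hmap]
      exact hμ
    have h2 : (A.charpoly.map (Int.castRingHom ℂ)).coeff 0 = 0 := by
      rw [Polynomial.coeff_zero_eq_eval_zero]
      exact h1
    rw [Polynomial.coeff_map] at h2
    have h3 : A.charpoly.coeff 0 = 0 := by
      have : ((A.charpoly.coeff 0 : ℤ) : ℂ) = 0 := h2
      exact_mod_cast this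
    have h4 := Matrix.det_eq_sign_charpoly_coeff A
    rw [h3, mul_zero] at h4
    exact hdet0 h4
  · have := hsmall μ hμ hne
    linarith

theorem list_pisot2 (hQ : ((m:ℝ) + 1) * (2 + κ) < Q) (hκ : 1 ≤ κ)
    (l : List (Fin (m+1) → List (Fin (m+1)))) (hl : ∀ τ ∈ l, SBlk κ Q τ) (hne : l ≠ [])
    (hdet : ∀ τ ∈ l, (inc τ).det ≠ 0) : IrrPis (inc (compList l)) := by
  have hm0 : (0:ℝ) ≤ m := Nat.cast_nonneg m
  have hQ0 : 0 < Q := lt_of_le_of_lt (by positivity) hQ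
  obtain ⟨E, hE⟩ := list_blk hQ0 l hl
  have hl' := hE E le_rfl
  have hbig := list_big hQ0 l hl' hne
  have hone : ∀ i j, 1 ≤ inc (compList l) i j := fun i j => by
    have h2 := lt_of_lt_of_le hQ0 (hbig i j)
    have h3 : 0 < inc (compList l) i j := by exact_mod_cast h2
    omega
  obtain ⟨f, Λ, hf, hfs, hΛ, hfA⟩ := exists_left (inc (compList l)) hone
  have hcmp := eig_cmp hQ0 l hl' hne f Λ hΛ hf hfA
  have hΛQ : Q ≤ Λ := by
    have h1 := congrFun hfA 0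
    unfold ra at h1
    have h2 : Q * ∑ i, f i ≤ ∑ i, f i * ((inc (compList l) i 0 : ℤ) : ℝ) := by
      rw [Finset.mul_sum]
      refine Finset.sum_le_sum fun i _ => ?_
      rw [mul_comm]
      exact mul_le_mul_of_nonneg_left (hbig i 0) (hf i).le
    rw [h1, hfs, mul_one] at h2
    have h3 : f 0 ≤ 1 := by
      rw [← hfs]
      exact Finset.single_le_sum (f := f) (fun j _ => (hf j).le) (Finset.mem_univ 0)
    have h4 : Λ * f 0 ≤ Λ * 1 := mul_le_mul_of_nonneg_left h3 hΛ.le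
    linarith
  refine pisot_of2 (inc (compList l)) κ f Λ hcmp hfA (lt_of_lt_of_le hQ hΛQ) ?_ (list_det0 l hdet)
  intro z hz
  refine (list_con l hl' f hf z ?_).2 hne
  rw [hfA, pa_smul_left, hz, mul_zero]

/-- `ρ ∘ τ` is a block if the incidence matrix of `τ` is a high power of `M` -/
theorem sblk_sub {M : Matrix (Fin (m+1)) (Fin (m+1)) ℤ} (P : PD M) (T : ℕ) :
    ∃ κ₀ : ℝ, 1 ≤ κ₀ ∧ ∀ κ ≥ κ₀, ∀ Q : ℝ, ∃ K : ℕ, ∀ k ≥ K,
      ∀ ρ : Fin (m+1) → List (Fin (m+1)), (inc ρ).det ≠ 0 → (∀ a, (ρ a).length ≤ T) →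
      ∀ τ : Fin (m+1) → List (Fin (m+1)), inc τ = M ^ k → SBlk κ Q (comp ρ τ) := by
  classical
  obtain ⟨κ₀, K1, hK10⟩ := cmp_pow P
  refine ⟨κ₀, (hK10 K1 le_rfl (fun _ => 1) (fun _ => one_pos)).one_le, fun κ hκκ Q => ?_⟩
  have hK1 : ∀ k ≥ K1, ∀ h : Fin (m+1) → ℝ, (∀ i, 0 < h i) → Cmp κ (ra h (M ^ k)) :=
    fun k hk h hh => (hK10 k hk h hh).mono hκκ
  obtain ⟨C2, hC2, hcon⟩ := con_pow P
  have hT0 : (0:ℝ) ≤ T := Nat.cast_nonneg T
  obtain ⟨Q', hQ'⟩ : ∃ Q', Q' = max |Q| 1 := ⟨_, rfl⟩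
  have hQ1 : 1 ≤ Q' := by rw [hQ']; exact le_max_right _ _
  have hQ2 : Q ≤ Q' := by rw [hQ']; exact (le_abs_self Q).trans (le_max_left _ _)
  have hQ0 : 0 ≤ Q' := zero_le_one.trans hQ1
  obtain ⟨K2, hK2⟩ := big_pow P Q'
  obtain ⟨K3, hK3⟩ : ∃ K3 : ℕ, ∀ k ≥ K3, (T:ℝ) * C2 * P.rho ^ k ≤ 1 / 2 := by
    have h := tendsto_pow_atTop_nhds_zero_of_lt_one P.rho_nonneg P.rho_lt
    have h2 : Filter.Tendsto (fun k : ℕ => (T:ℝ) * C2 * P.rho ^ k) Filter.atTop (nhds 0) := by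
      have := h.const_mul ((T:ℝ) * C2)
      rwa [mul_zero] at this
    exact Filter.eventually_atTop.1 ((h2.eventually (gt_mem_nhds
      (show (0:ℝ) < 1/2 by norm_num))).mono fun n hn => hn.le)
  refine ⟨max (max K1 K2) K3, fun k hk ρ hdet hT τ hτ => ?_⟩
  have hk1 : K1 ≤ k := le_trans (le_trans (le_max_left _ _) (le_max_left _ _)) hk
  have hk2 : K2 ≤ k := le_trans (le_trans (le_max_right _ _) (le_max_left _ _)) hk
  have hk3 : K3 ≤ k := le_trans (le_max_right _ _) hk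
  have hinc : inc (comp ρ τ) = inc ρ * M ^ k := by rw [inc_comp, hτ]
  have hbig : ∀ i j, Q' ≤ (((inc ρ * M ^ k) i j : ℤ) : ℝ) := by
    intro i j
    obtain ⟨l, hl⟩ := row_one ρ hdet i
    rw [Matrix.mul_apply]
    push_cast
    have h1 : ∀ l, 0 ≤ ((inc ρ i l : ℤ) : ℝ) * (((M ^ k) l j : ℤ) : ℝ) := fun l => by
      refine mul_nonneg ?_ (hQ0.trans (hK2 k hk2 l j))
      exact_mod_cast inc_nonneg ρ i l
    have h2 := Finset.single_le_sum
      (f := fun l => ((inc ρ i l : ℤ) : ℝ) * (((M ^ k) l j : ℤ) : ℝ))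
      (fun l _ => h1 l) (Finset.mem_univ l)
    have h3 : (1:ℝ) ≤ ((inc ρ i l : ℤ) : ℝ) := by exact_mod_cast hl
    have h4 := hK2 k hk2 l j
    have h5 := hQ0
    have h6 : 1 * Q' ≤ ((inc ρ i l : ℤ) : ℝ) * (((M ^ k) l j : ℤ) : ℝ) :=
      mul_le_mul h3 h4 h5 (by linarith)
    linarith
  refine ⟨?_, ?_, ?_⟩
  · intro f hf
    rw [hinc, ra_mul]
    exact hK1 k hk1 _ (col_pos ρ hdet hf)
  · intro f hf z hz
    rw [hinc, ra_mul] at hz
    rw [hinc, act_mul]
    have h1 := hcon k _ (col_pos ρ hdet hf) z hz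
    have h2 := nm_act_le ρ T hT (act (M ^ k) z)
    have h3 := mul_le_mul_of_nonneg_left h1 hT0
    have h4 := mul_le_mul_of_nonneg_right (hK3 k hk3) (nm_nonneg z)
    linarith
  · intro i j
    rw [hinc]
    exact hQ2.trans (hbig i j)

/-- blocks `ρ ∘ τ` with `inc τ = M i ^ k`, `k ≥ K` and `ρ` of nonzero determinant with images of
length at most `T` -/
def Bk {ι : Type*} (M : ι → Matrix (Fin (m+1)) (Fin (m+1)) ℤ) (T K : ℕ)
    (S : Fin (m+1) → List (Fin (m+1))) : Prop :=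
  ∃ ρ τ : Fin (m+1) → List (Fin (m+1)), S = comp ρ τ ∧ (inc ρ).det ≠ 0 ∧
    (∀ a, (ρ a).length ≤ T) ∧ ∃ i, ∃ k, K ≤ k ∧ inc τ = M i ^ k

theorem Bk.ne_nil {ι : Type*} {M : ι → Matrix (Fin (m+1)) (Fin (m+1)) ℤ} {T K : ℕ}
    (hM : ∀ i, (M i).det ≠ 0)
    {S : Fin (m+1) → List (Fin (m+1))} (h : Bk M T K S) : (inc S).det ≠ 0 ∧ ∀ a, S a ≠ [] := by
  obtain ⟨ρ, τ, rfl, hdet, -, i, k, -, hk⟩ := h
  have h1 : (inc (comp ρ τ)).det ≠ 0 := by
    rw [inc_comp, Matrix.det_mul, hk, Matrix.det_pow]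
    exact mul_ne_zero hdet (pow_ne_zero _ (hM i))
  exact ⟨h1, fun a => ne_nil_of_rpos (f := fun _ => 1)
    (col_pos (comp ρ τ) h1 (fun _ => one_pos)) a⟩

/-- compositions of blocks are irreducible Pisot -/
theorem blocks_pisot {ι : Type*} [Fintype ι] (M : ι → Matrix (Fin (m+1)) (Fin (m+1)) ℤ)
    (hnn : ∀ i a b, 0 ≤ M i a b) (hM : ∀ i, IrrPis (M i)) (T : ℕ) :
    ∃ K : ℕ, ∀ l : List (Fin (m+1) → List (Fin (m+1))), l ≠ [] → (∀ S ∈ l, Bk M T K S) →
      IrrPis (inc (compList l)) := by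
  classical
  have hPD : ∀ i, ∃ P : PD (M i), True := fun i => by
    obtain ⟨lam, u, h1, h2, h3⟩ := exists_u2 (M i) (hnn i) (hM i)
    obtain ⟨P, -, -⟩ := exists_PD2 (M i) (hnn i) (hM i) lam h1 u h2 h3
    exact ⟨P, trivial⟩
  choose P _ using hPD
  have hall := fun i => sblk_sub (P i) T
  choose κi hκi1 hblk using hall
  obtain ⟨κ, hκd⟩ : ∃ κ : ℝ, κ = 1 + ∑ i, κi i := ⟨_, rfl⟩
  have hs0 : 0 ≤ ∑ i, κi i := Finset.sum_nonneg fun i _ => zero_le_one.trans (hκi1 i)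
  have hκi : ∀ i, κ ≥ κi i := by
    intro i
    have := Finset.single_le_sum (f := κi) (fun i _ => zero_le_one.trans (hκi1 i))
      (Finset.mem_univ i)
    rw [hκd]
    linarith
  have hκ : 1 ≤ κ := by rw [hκd]; linarith
  obtain ⟨Q, hQ⟩ : ∃ Q : ℝ, Q = ((m:ℝ) + 1) * (2 + κ) + 1 := ⟨_, rfl⟩
  have hall2 := fun i => hblk i κ (hκi i) Q
  choose Ki hKi using hall2
  refine ⟨∑ i, Ki i, fun l hne hl => ?_⟩
  refine list_pisot2 (κ := κ) (Q := Q) (by rw [hQ]; linarith) hκ l ?_ hne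
    (fun S hS => ((hl S hS).ne_nil fun i => (hM i).det_ne).1)
  intro S hS
  obtain ⟨ρ, τ, rfl, hdet, hT, i, k, hk, hinc⟩ := hl S hS
  have h1 : Ki i ≤ ∑ i, Ki i := Finset.single_le_sum (f := Ki) (fun i _ => Nat.zero_le _)
    (Finset.mem_univ i)
  exact hKi i k (h1.trans hk) ρ hdet hT τ hinc

end Pool.Agent.R200.PT
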