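import Pool.Agent.R200.PT.SBlk
import Pool.Agent.R200.PT.NGen

/-!
Strong coincidences of compositions of substitutions: uniform coincidences, absorption and a
zero-one law.
-/

set_option autoImplicit false

namespace Pool.Agent.R200.PT
open Pool.Agent.H812R2.PI Pool.Agent.TH100.Pisot Pool.Agent.R889.PZ
open scoped BigOperators

theorem uc_one {d : ℕ} {M : Matrix (Fin d) (Fin d) ℤ} (P : PD M) (n : ℕ) (hn : 1 ≤ n)
    (σ : Fin d → List (Fin d)) (hUC : (P.pow n hn).UC σ 0) : OneCo σ := by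
  intro a b
  have h0 : (P.pow n hn).N (rv (0 : Fin d → ℤ)) ≤ 0 := by
    rw [rv_zero, N_zero]
  have hov : 0 < (P.pow n hn).OV (0, a) ((0 : Fin d → ℤ), b) := by
    unfold PD.OV ovl
    rw [ht_zero]
    have ha := (P.pow n hn).ell_pos a
    have hb := (P.pow n hn).ell_pos b
    simp only [zero_add, max_self, sub_zero]
    exact lt_max_of_lt_right (lt_min ha hb)
  obtain ⟨e, he1, he2⟩ := hUC a b 0 h0 hov
  rw [Matrix.mulVec_zero] at he2
  rw [mem_edges] at he1 he2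
  obtain ⟨k1, hk1, rfl⟩ := he1
  obtain ⟨k2, hk2, h2⟩ := he2
  have h3 : ab ((σ a).take k1) = ab ((σ b).take k2) := by
    have := congrArg Prod.fst h2
    simpa using this
  have h4 : (σ a)[k1] = (σ b)[k2] := congrArg Prod.snd h2
  refine ⟨(σ a)[k1], (σ a).take k1, (σ a).drop (k1+1), (σ b).take k2,
    (σ b).drop (k2+1), ?_, ?_, h3⟩
  · conv_lhs => rw [← List.take_append_drop k1 (σ a)]
    rw [List.drop_eq_getElem_cons hk1]
  · rw [h4]
    conv_lhs => rw [← List.take_append_drop k2 (σ b)]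
    rw [List.drop_eq_getElem_cons hk2]

theorem mem_one {d : ℕ} (l : List (Fin d → List (Fin d))) (hl : ∀ τ ∈ l, ∀ a, τ a ≠ [])
    (τ : Fin d → List (Fin d)) (hτ : τ ∈ l) (h : OneCo τ) : OneCo (compList l) := by
  obtain ⟨l1, l2, rfl⟩ := List.append_of_mem hτ
  refine oneCo_list l1 l2 τ (fun τ' h' => hl τ' ?_) h
  rcases List.mem_append.1 h' with h'' | h''
  · exact List.mem_append_left _ h''
  · exact List.mem_append_right _ (List.mem_cons_of_mem _ h'')

theorem rho_ne {m : ℕ} {ρ : Fin (m+1) → List (Fin (m+1))} (h : (inc ρ).det ≠ 0) (a : Fin (m+1)) :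
    ρ a ≠ [] :=
  ne_nil_of_rpos (f := fun _ => 1) (col_pos ρ h (fun _ => one_pos)) a

theorem absorb_sc {m : ℕ} {ι : Type} (M : ι → Matrix (Fin (m+1)) (Fin (m+1)) ℤ)
    (hM : ∀ i, IrrPis (M i)) (T K : ℕ) (i : ι)
    (σ : Fin (m+1) → List (Fin (m+1))) (hi : inc σ = M i) (hσ : StrongCo σ) :
    ∃ K' : ℕ, ∀ l : List (Fin (m+1) → List (Fin (m+1))), (∀ S ∈ l, Bk M T K S) →
      ∀ (ρ : Fin (m+1) → List (Fin (m+1))) (k : ℕ), K' ≤ k → (inc ρ).det ≠ 0 →
        comp ρ (iter σ k) ∈ l → OneCo (compList l) := by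
  have h0 : (inc σ).det ≠ 0 := by
    rw [hi]
    exact (hM i).det_ne
  obtain ⟨K', hK'⟩ := hσ.one (rho_ne h0)
  refine ⟨K', fun l hl ρ k hk hdet hmem => ?_⟩
  exact mem_one l (fun S hS => ((hl S hS).ne_nil fun i => (hM i).det_ne).2) _ hmem
    ((hK' k hk).comp_left (rho_ne hdet))

/-- exceptional sets for strong coincidences -/
theorem bad_strong {m : ℕ} {ι : Type} [Fintype ι] (M : ι → Matrix (Fin (m+1)) (Fin (m+1)) ℤ)
    (hnn : ∀ i a b, 0 ≤ M i a b) (hM : ∀ i, IrrPis (M i)) (R : ∀ i, PD (M i)) (T : ℕ) :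
    ∃ B₀ : ℝ, ∀ B ≥ B₀, ∃ c : ℝ, 0 < c ∧ ∃ K : ℕ,
      ∃ Bad : ι → ℕ → Set (Fin (m+1) → List (Fin (m+1))),
      (∀ i, ∀ k ≥ K, (SubSet (R i).u (M i ^ k) B).Finite ∧ (SubSet (R i).u (M i ^ k) B).Nonempty ∧
        Bad i k ⊆ SubSet (R i).u (M i ^ k) B ∧
        ((Bad i k).ncard : ℝ) ≤ Real.exp (-(c * ∑ a, ∑ b, (((M i ^ k) a b : ℤ) : ℝ))) *
          ((SubSet (R i).u (M i ^ k) B).ncard : ℝ)) ∧
      ∀ (n : ℕ) (i : Fin n → ι) (k : Fin n → ℕ), (∀ j, K ≤ k j) →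
      ∀ ρ : Fin n → Fin (m+1) → List (Fin (m+1)),
      (∀ j, (inc (ρ j)).det ≠ 0) → (∀ j a, (ρ j a).length ≤ T) →
      ∀ τ : Fin n → Fin (m+1) → List (Fin (m+1)),
        (∀ j, inc (τ j) = M (i j) ^ k j) →
        (0 < n → IrrPis (inc (cpl ρ τ))) ∧
        ((∀ j, τ j ∈ SubSet (R (i j)).u (M (i j) ^ k j) B) → (∃ j, τ j ∉ Bad (i j) (k j)) →
          OneCo (cpl ρ τ)) := by
  classical
  have h1 := fun i => generic_UC (M i) (hnn i) (R i)
  choose Bi hBi using h1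
  obtain ⟨Kp, hKp⟩ := blocks_pisot M hnn hM T
  refine ⟨∑ i, |Bi i|, fun B hB => ?_⟩
  have hBi' : ∀ i, B ≥ Bi i := by
    intro i
    have h2 := Finset.single_le_sum (f := fun i => |Bi i|) (fun i _ => abs_nonneg _)
      (Finset.mem_univ i)
    have h3 := le_abs_self (Bi i)
    exact (h3.trans h2).trans hB
  have h2 := fun i => hBi i B (hBi' i) 0
  choose ci hci Ki hKi hgen using h2
  obtain ⟨c, hc0, hc⟩ : ∃ c : ℝ, 0 < c ∧ ∀ i, c ≤ ci i := by
    have hs : 0 ≤ ∑ i, (ci i)⁻¹ := Finset.sum_nonneg fun i _ => (inv_pos.2 (hci i)).le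
    refine ⟨(1 + ∑ i, (ci i)⁻¹)⁻¹, by positivity, fun i => ?_⟩
    have h3 := Finset.single_le_sum (f := fun i => (ci i)⁻¹) (fun i _ => (inv_pos.2 (hci i)).le)
      (Finset.mem_univ i)
    have h4 : (ci i)⁻¹ ≤ 1 + ∑ i, (ci i)⁻¹ := by linarith
    exact inv_le_of_inv_le₀ (hci i) h4
  refine ⟨c, hc0, max (∑ i, Ki i) Kp,
    fun i k => {σ | σ ∈ SubSet (R i).u (M i ^ k) B ∧
      ∀ h1k : 1 ≤ k, ¬ ((R i).pow k h1k).UC σ 0}, ?_, ?_⟩
  · intro i k hk
    have hk' : Ki i ≤ k :=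
      (Finset.single_le_sum (f := Ki) (fun i _ => Nat.zero_le _) (Finset.mem_univ i)).trans
        ((le_max_left _ _).trans hk)
    have h1k : 1 ≤ k := (hKi i).trans hk'
    obtain ⟨h3, h4, h5⟩ := hgen i k hk' h1k
    refine ⟨h3, h4, fun σ h => h.1, ?_⟩
    have h6 : {σ | σ ∈ SubSet (R i).u (M i ^ k) B ∧
        ∀ h1k : 1 ≤ k, ¬ ((R i).pow k h1k).UC σ 0} =
        {σ | σ ∈ SubSet (R i).u (M i ^ k) B ∧ ¬ ((R i).pow k h1k).UC σ 0} := by
      ext σ
      exact ⟨fun h => ⟨h.1, h.2 h1k⟩, fun h => ⟨h.1, fun _ => h.2⟩⟩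
    simp only
    rw [h6]
    refine h5.trans (mul_le_mul_of_nonneg_right ?_ (Nat.cast_nonneg _))
    refine Real.exp_le_exp.2 (neg_le_neg ?_)
    refine mul_le_mul_of_nonneg_right (hc i) ?_
    refine Finset.sum_nonneg fun a _ => Finset.sum_nonneg fun b _ => ?_
    exact_mod_cast GFin_pow_nonneg (M i) (hnn i) k a b
  intro n i k hk ρ hρ hT τ hτ
  have hk' : ∀ j, Ki (i j) ≤ k j := fun j =>
    (Finset.single_le_sum (f := Ki) (fun i _ => Nat.zero_le _) (Finset.mem_univ (i j))).trans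
      ((le_max_left _ _).trans (hk j))
  have h1k : ∀ j, 1 ≤ k j := fun j => (hKi (i j)).trans (hk' j)
  have hB : ∀ S ∈ List.ofFn fun j => comp (ρ j) (τ j), Bk M T Kp S := by
    intro S hS
    obtain ⟨j, rfl⟩ := (List.mem_ofFn' _ _).1 hS
    exact ⟨ρ j, τ j, rfl, hρ j, hT j, i j, k j, (le_max_right _ _).trans (hk j), hτ j⟩
  refine ⟨fun hn => hKp _ ?_ hB, fun hS hj => ?_⟩
  · intro h
    have := congrArg List.length h
    rw [List.length_ofFn] at this
    simp at this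
    omega
  · obtain ⟨j, hj⟩ := hj
    have hUC : ((R (i j)).pow (k j) (h1k j)).UC (τ j) 0 := by
      by_contra hcon
      exact hj ⟨hS j, fun _ => hcon⟩
    have h3 := uc_one _ _ _ _ hUC
    refine mem_one _ ?_ (comp (ρ j) (τ j)) ((List.mem_ofFn' _ _).2 ⟨j, rfl⟩)
      (h3.comp_left (rho_ne (hρ j)))
    intro S hS'
    exact ((hB S hS').ne_nil fun i => (hM i).det_ne).2

theorem word_one {d : ℕ} {ι : Type} (F : ι → Fin d → List (Fin d)) (hF : ∀ i a, F i a ≠ [])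
    (w : List ι) (hg : StrongCo (compList (w.map F))) :
    ∃ K : ℕ, ∀ k ≥ K, ∀ l₁ l₂ : List ι,
      OneCo (compList ((l₁ ++ (List.replicate k w).flatten ++ l₂).map F)) := by
  have hne : ∀ l : List ι, ∀ τ ∈ l.map F, ∀ a, τ a ≠ [] := by
    intro l τ hτ a
    obtain ⟨i, -, rfl⟩ := List.mem_map.1 hτ
    exact hF i a
  obtain ⟨K, hK⟩ := hg.one (fun a => compList_ne_nil _ (hne w) a)
  refine ⟨K, fun k hk l₁ l₂ => ?_⟩
  have h1 : (List.replicate k w).flatten.map F = (List.replicate k (w.map F)).flatten := by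
    clear hk
    induction k with
    | zero => rfl
    | succ n ih =>
      rw [List.replicate_succ, List.replicate_succ, List.flatten_cons, List.flatten_cons,
        List.map_append, ih]
  rw [List.map_append, List.map_append, compList_append, compList_append, h1,
    Pool.Agent.Y316.Pisot.compList_flatten]
  refine OneCo.comp_right ?_ (compList_ne_nil _ (hne l₂))
  exact (hK k hk).comp_left (compList_ne_nil _ (hne l₁))

open Classical in
theorem sc_zero_one {d : ℕ} {ι : Type} [Fintype ι] (F : ι → Fin d → List (Fin d))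
    (hF : ∀ i a, F i a ≠ []) :
    (∀ w : List ι, w ≠ [] → ¬ StrongCo (compList (w.map F))) ∨
    ((∃ W : List ι, W ≠ [] ∧ ∀ l₁ l₂ : List ι, OneCo (compList ((l₁ ++ W ++ l₂).map F))) ∧
      (∀ p : ι → ℝ, (∀ i, 0 < p i) → ∑ i, p i = 1 → ∃ C c : ℝ, 0 < c ∧ ∀ k : ℕ,
        ∑ f : Fin k → ι, (if OneCo (compList (List.ofFn fun j => F (f j))) then 0
          else ∏ j, p (f j)) ≤ C * Real.exp (-(c * k))) ∧
      ∀ w : List ι, w ≠ [] → StrongCo (compList (w.map F)) → ∃ K : ℕ, ∀ k ≥ K, ∀ l₁ l₂ : List ι,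
        OneCo (compList ((l₁ ++ (List.replicate k w).flatten ++ l₂).map F))) := by
  by_cases h : ∃ w : List ι, w ≠ [] ∧ StrongCo (compList (w.map F))
  · right
    obtain ⟨w, hw, hg⟩ := h
    obtain ⟨K, hK⟩ := word_one F hF w hg
    obtain ⟨W, hW⟩ : ∃ W : List ι, W = (List.replicate (K + 1) w).flatten := ⟨_, rfl⟩
    have hW0 : W ≠ [] := by
      rw [hW, List.replicate_succ, List.flatten_cons]
      intro h
      exact hw (List.append_eq_nil_iff.1 h).1
    have hWf : ∀ l₁ l₂ : List ι, OneCo (compList ((l₁ ++ W ++ l₂).map F)) := by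
      intro l₁ l₂
      rw [hW]
      exact hK (K + 1) (Nat.le_succ K) l₁ l₂
    refine ⟨⟨W, hW0, hWf⟩, fun p hp hps => ?_, fun w _ hg => word_one F hF w hg⟩
    obtain ⟨C, c, hc, h⟩ := wt_exp p hp hps W hW0
    refine ⟨C, c, hc, fun k => le_trans ?_ (h k)⟩
    unfold wt
    refine Finset.sum_le_sum fun f _ => ?_
    by_cases hf : Has W f
    · have hgood : OneCo (compList (List.ofFn fun j => F (f j))) := by
        obtain ⟨l₁, l₂, hl⟩ := hf
        have h3 : (List.ofFn fun j => F (f j)) = (l₁ ++ W ++ l₂).map F := by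
          rw [← hl, List.map_ofFn]
          rfl
        rw [h3]
        exact hWf l₁ l₂
      rw [if_pos hf, if_pos hgood]
    · rw [if_neg hf]
      have h0 : 0 ≤ ∏ j, p (f j) := Finset.prod_nonneg fun j _ => (hp _).le
      split_ifs
      · exact h0
      · exact le_rfl
  · left
    intro w hw hg
    exact h ⟨w, hw, hg⟩

end Pool.Agent.R200.PT
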